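import Mathlib
import Pool.Agent.X188.Transl

/-! No `ℕ`-ordering of an overcomplete frame of translates is the orbit of a bounded operator. -/

set_option autoImplicit false
open MeasureTheory
open scoped InnerProductSpace
open Pool.Agent.X188.Transl Pool.Agent.Results.MP_6c6e33_an.GaborOrbit

namespace Pool.Agent.Results.MP_909498_an.NoNaturalOrdering

/-- `L²(ℝ)` -/
abbrev L2R : Type := Lp ℂ 2 (volume : Measure ℝ)

/-- `f k = T_{kb} φ` for all `k ∈ ℤ`, where `T_a φ (x) = φ (x - a)`. -/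
def IsTranslates (φ : L2R) (b : ℝ) (f : ℤ → L2R) : Prop :=
  ∀ k : ℤ, (f k : ℝ → ℂ) =ᵐ[volume] fun x => (φ : ℝ → ℂ) (x - k * b)

/-- The sequence `F` is represented by a bounded operator: there is a bounded linear operator
`V : span {F k} → L²(ℝ)` with `V (F k) = F (k + 1)`, that is `F k = V^k (F 0)`, for all `k`. -/
def IsBoundedOrbit (F : ℕ → L2R) : Prop :=
  ∃ V : Submodule.span ℂ (Set.range F) →L[ℂ] L2R,
    ∀ k : ℕ, V ⟨F k, Submodule.subset_span ⟨k, rfl⟩⟩ = F (k + 1)

/-- If the system of translates `{T_{kb} φ}_{k ∈ ℤ}` is a frame sequence (`IsFrameSeq`) which is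
overcomplete (not a Riesz basis for its closed linear span), then no `ℕ`-ordering
`σ : ℕ ≃ ℤ` of it is represented by a bounded operator. -/
theorem result (φ : L2R) (hφ : φ ≠ 0) (b : ℝ) (_hb : 0 < b) (f : ℤ → L2R)
    (hf : IsTranslates φ b f) (hframe : IsFrameSeq f) (hover : ¬ IsRieszSeq f) (σ : ℕ ≃ ℤ) :
    ¬ IsBoundedOrbit (fun k => f (σ k)) := by
  rintro ⟨V, hV⟩
  refine main f ?_ ?_ hframe hover σ V hV
  · intro ν
    refine ⟨tf (ν * b) 0, fun μ => ?_⟩
    apply Lp.ext
    have h1 := coeFn_tf (ν * b) 0 (f μ)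
    have h4 := (measurePreserving_sub_right (volume : Measure ℝ) (ν * b)).quasiMeasurePreserving.ae
      (hf μ)
    filter_upwards [h1, hf (ν + μ), h4] with x hx1 hx2 hx3
    rw [hx1, hx2, hx3]
    have e : x - ν * b - μ * b = x - ((ν + μ : ℤ) : ℝ) * b := by push_cast; ring
    rw [e]
    simp [md]
  · intro h
    apply hφ
    apply Lp.ext
    have h1 := hf 0
    rw [h] at h1
    have h2 := Lp.coeFn_zero ℂ 2 (volume : Measure ℝ)
    filter_upwards [h1, h2] with x hx1 hx2
    rw [hx2] at hx1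
    rw [hx2]
    simpa using hx1.symm

end Pool.Agent.Results.MP_909498_an.NoNaturalOrdering
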